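import Pool.Agent.H70.EN.Targets

/-!
# The largest correlations are attained
-/

set_option autoImplicit false

open Finset Pool.Agent.H6.N4D Pool.Agent.H93.EB Pool.Agent.H70.EN

namespace Pool.Agent.H67.ENM

theorem norm_crq_le (lam : ℕ → ℝ) (q N n : ℕ) (θ : ℝ) :
    ‖crq lam q N n θ‖ ≤ (∑ m ∈ (Ioc n (n + N)).filter (fun m => q ∣ m), |lam m|) * q / N := by
  unfold crq
  rw [norm_div, norm_mul, Complex.norm_natCast, Complex.norm_natCast]
  refine div_le_div_of_nonneg_right (mul_le_mul_of_nonneg_right ?_ (Nat.cast_nonneg _))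
    (Nat.cast_nonneg _)
  refine (norm_sum_le _ _).trans (le_of_eq ?_)
  refine sum_congr rfl fun m _ => ?_
  rw [norm_mul, norm_ee, mul_one, Complex.norm_real, Real.norm_eq_abs]

theorem bddAbove_crq (lam : ℕ → ℝ) (q N n : ℕ) :
    BddAbove (Set.range fun θ : ℝ => ‖crq lam q N n θ‖) :=
  ⟨_, by rintro x ⟨θ, rfl⟩; exact norm_crq_le lam q N n θ⟩

theorem le_Mq (lam : ℕ → ℝ) (q N n : ℕ) (θ : ℝ) : ‖crq lam q N n θ‖ ≤ Mq lam q N n :=
  le_ciSup (bddAbove_crq lam q N n) θ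

theorem continuous_crq (lam : ℕ → ℝ) (q N n : ℕ) : Continuous (crq lam q N n) := by
  unfold crq
  refine Continuous.div_const (Continuous.mul ?_ continuous_const) _
  refine continuous_finsetSum _ fun m _ => ?_
  refine Continuous.mul continuous_const ?_
  exact continuous_ee.comp (by fun_prop)

theorem crq_sub_int (lam : ℕ → ℝ) (q N n : ℕ) (θ : ℝ) (k : ℤ) :
    crq lam q N n (θ - k) = crq lam q N n θ := by
  unfold crq
  congr 2
  refine sum_congr rfl fun m _ => ?_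
  congr 1
  have h : -((θ - k) * (m : ℝ)) = -(θ * m) - ((-(k * m) : ℤ) : ℝ) := by push_cast; ring
  rw [h, ee_sub_int]

theorem exists_max_q (lam : ℕ → ℝ) (q N n : ℕ) :
    ∃ θ : ℝ, 0 ≤ θ ∧ θ ≤ 1 ∧ ‖crq lam q N n θ‖ = Mq lam q N n := by
  obtain ⟨θ, hθ, hmax⟩ := (isCompact_Icc (a := (0 : ℝ)) (b := 1)).exists_isMaxOn
    ⟨0, by simp⟩ ((continuous_crq lam q N n).norm.continuousOn)
  refine ⟨θ, hθ.1, hθ.2, le_antisymm (le_Mq lam q N n θ) ?_⟩
  refine ciSup_le fun x => ?_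
  have h1 : ‖crq lam q N n x‖ = ‖crq lam q N n (Int.fract x)‖ := by
    rw [Int.fract, crq_sub_int]
  rw [h1]
  exact hmax ⟨Int.fract_nonneg x, (Int.fract_lt_one x).le⟩

theorem pf_MAT : T_MAT := by
  intro lam q N n
  obtain ⟨θ, h0, h1, h2⟩ := exists_max lam N n
  obtain ⟨ψ, k0, k1, k2⟩ := exists_max_q lam q N n
  exact ⟨⟨θ, h0, h1, h2.symm⟩, le_M lam N n, ⟨ψ, k0, k1, k2.symm⟩, le_Mq lam q N n⟩

end Pool.Agent.H67.ENM
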