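import Pool.Agent.H67.ENM.MAT

/-!
# Bounds for the largest correlations
-/

set_option autoImplicit false

open Finset Pool.Agent.H6.N4D Pool.Agent.H93.EB Pool.Agent.H70.EN

namespace Pool.Agent.H67.ENM

theorem card_mult (q N n : ℕ) (hq : 1 ≤ q) :
    (((Ioc n (n + N)).filter fun m => q ∣ m).card : ℝ) ≤ (N : ℝ) / q + 1 := by
  have h1 : ((Ioc n (n + N)).filter fun m => q ∣ m).card ≤ N / q + 1 := by
    have hsub : ((Ioc n (n + N)).filter fun m => q ∣ m) ⊆
        (Ioc (n / q) ((n + N) / q)).image (fun b => q * b) := by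
      intro m hm
      rw [mem_filter, mem_Ioc] at hm
      obtain ⟨⟨h1, h2⟩, b, rfl⟩ := hm
      rw [mem_image]
      refine ⟨b, ?_, rfl⟩
      rw [mem_Ioc]
      exact ⟨(Nat.div_lt_iff_lt_mul (by omega)).2 (by rwa [mul_comm]),
        (Nat.le_div_iff_mul_le (by omega)).2 (by rwa [mul_comm])⟩
    refine (card_le_card hsub).trans (card_image_le.trans ?_)
    rw [Nat.card_Ioc]
    have h3 : (n + N) / q ≤ n / q + N / q + 1 := by
      have := Nat.add_div (a := n) (b := N) (show 0 < q by omega)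
      rw [this]
      split_ifs
      · exact le_rfl
      · exact Nat.le_succ _
    rw [Nat.sub_le_iff_le_add]
    linarith
  calc (((Ioc n (n + N)).filter fun m => q ∣ m).card : ℝ) ≤ ((N / q + 1 : ℕ) : ℝ) := by
        exact_mod_cast h1
    _ = ((N / q : ℕ) : ℝ) + 1 := by push_cast; ring
    _ ≤ _ := by
      have := Nat.cast_div_le (α := ℝ) (m := N) (n := q)
      linarith

theorem norm_crq_le_one (lam : ℕ → ℝ) (hl : ∀ n, |lam n| ≤ 1) (q N n : ℕ) (θ : ℝ) :
    ‖crq lam q N n θ‖ ≤ 1 + (q : ℝ) / N := by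
  rcases Nat.eq_zero_or_pos N with rfl | hN
  · have : crq lam q 0 n θ = 0 := by
      unfold crq
      simp
    rw [this, norm_zero]
    positivity
  rcases Nat.eq_zero_or_pos q with rfl | hq
  · have : crq lam 0 N n θ = 0 := by
      unfold crq
      simp
    rw [this, norm_zero]
    positivity
  have hN' : (0 : ℝ) < N := by exact_mod_cast hN
  have hq' : (0 : ℝ) < q := by exact_mod_cast hq
  refine (norm_crq_le lam q N n θ).trans ?_
  have h1 : ∑ m ∈ (Ioc n (n + N)).filter (fun m => q ∣ m), |lam m| ≤ (N : ℝ) / q + 1 := by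
    refine (sum_le_sum fun m _ => hl m).trans ?_
    rw [sum_const, nsmul_eq_mul, mul_one]
    exact card_mult q N n hq
  calc (∑ m ∈ (Ioc n (n + N)).filter (fun m => q ∣ m), |lam m|) * q / N ≤
      ((N : ℝ) / q + 1) * q / N := by gcongr
    _ = 1 + (q : ℝ) / N := by field_simp

theorem pf_MBD (_h1 : T_MAT) : T_MBD := by
  intro lam q N n hl
  exact ⟨M_nonneg lam N n, M_le_one lam hl N n, (norm_nonneg _).trans (le_Mq lam q N n 0),
    ciSup_le fun θ => norm_crq_le_one lam hl q N n θ⟩

end Pool.Agent.H67.ENM
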